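import Mathlib

set_option autoImplicit false

open MeasureTheory ProbabilityTheory Filter Topology

namespace Pool.Agent.X38.Cub

/-- The vertices of the `n`-cube: `0`-`1` vectors of length `n`. -/
abbrev V (n : ℕ) := Fin n → ZMod 2

/-- The squares of the `n`-cube: the triple `(x, i, j)` with `i < j` and `x i = x j = 0` stands for
the square in which the coordinates `i` and `j` vary and the other coordinates are those of `x`. -/
def Sq (n : ℕ) : Type :=
  {q : V n × Fin n × Fin n // q.2.1 < q.2.2 ∧ q.1 q.2.1 = 0 ∧ q.1 q.2.2 = 0}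

instance (n : ℕ) : DecidableEq (Sq n) := inferInstanceAs (DecidableEq (Subtype _))
instance (n : ℕ) : Fintype (Sq n) :=
  Subtype.fintype fun q : V n × Fin n × Fin n => q.2.1 < q.2.2 ∧ q.1 q.2.1 = 0 ∧ q.1 q.2.2 = 0

/-- The neighbour of the vertex `x` in direction `i`. -/
def flip {n : ℕ} (x : V n) (i : Fin n) : V n := x + Pi.single i 1

/-- The end point of the edge path that starts in `x` and uses the directions of the list `w`. -/
def endp {n : ℕ} (x : V n) (w : List (Fin n)) : V n := w.foldl flip x

theorem endp_nil {n : ℕ} (x : V n) : endp x [] = x := rfl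

theorem endp_cons {n : ℕ} (x : V n) (i : Fin n) (w : List (Fin n)) :
    endp x (i :: w) = endp (flip x i) w := rfl

/-- `q` is the square that contains the vertex `x` and in which the coordinates `i`, `j` vary. -/
def IsSq {n : ℕ} (q : Sq n) (x : V n) (i j : Fin n) : Prop :=
  ((q.1.2.1 = i ∧ q.1.2.2 = j) ∨ (q.1.2.1 = j ∧ q.1.2.2 = i)) ∧
    ∀ k, k ≠ i → k ≠ j → q.1.1 k = x k

/-- The elementary homotopies of edge paths with starting point `x` in the complex that consists of
all vertices and edges of the cube and the squares `q` with `ω q = true`: going forth and back along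
an edge is deleted, or two consecutive edges of a square of the complex are replaced by the other
two. -/
inductive Step {n : ℕ} (ω : Sq n → Bool) (x : V n) : List (Fin n) → List (Fin n) → Prop
  | back (u v : List (Fin n)) (i : Fin n) : Step ω x (u ++ i :: i :: v) (u ++ v)
  | square (u v : List (Fin n)) (i j : Fin n) (q : Sq n) : ω q = true → IsSq q (endp x u) i j →
      Step ω x (u ++ i :: j :: v) (u ++ j :: i :: v)

/-- Homotopy of edge paths with starting point `x`. -/
def Hom {n : ℕ} (ω : Sq n → Bool) (x : V n) : List (Fin n) → List (Fin n) → Prop :=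
  Relation.EqvGen (Step ω x)

/-- The displacement of a path. -/
def disp {n : ℕ} (w : List (Fin n)) : V n := (w.map fun i => (Pi.single i 1 : V n)).sum

theorem endp_eq {n : ℕ} (w : List (Fin n)) : ∀ x : V n, endp x w = x + disp w := by
  induction w with
  | nil => intro x; simp [endp_nil, disp]
  | cons i w ih =>
    intro x; simp only [endp_cons, ih, flip, disp, List.map_cons, List.sum_cons]; abel

theorem endp_append {n : ℕ} (x : V n) (u w : List (Fin n)) :
    endp x (u ++ w) = endp (endp x u) w := by
  simp only [endp_eq, disp, List.map_append, List.sum_append]; abel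

theorem disp_reverse {n : ℕ} (w : List (Fin n)) : disp w.reverse = disp w := by
  unfold disp
  rw [List.map_reverse]
  exact List.sum_reverse _

theorem add_self' {n : ℕ} (x : V n) : x + x = 0 := by
  funext k; exact CharTwo.add_self_eq_zero _

theorem Step.append_right {n : ℕ} {ω : Sq n → Bool} {x : V n} {a a' : List (Fin n)}
    (h : Step ω x a a') (b : List (Fin n)) : Step ω x (a ++ b) (a' ++ b) := by
  cases h with
  | back u v i => simpa using Step.back (ω := ω) (x := x) u (v ++ b) i
  | square u v i j q h1 h2 => simpa using Step.square (ω := ω) (x := x) u (v ++ b) i j q h1 h2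

theorem Step.append_left {n : ℕ} {ω : Sq n → Bool} {x : V n} (a : List (Fin n))
    {b b' : List (Fin n)} (h : Step ω (endp x a) b b') : Step ω x (a ++ b) (a ++ b') := by
  cases h with
  | back u v i =>
    have := Step.back (ω := ω) (x := x) (a ++ u) v i
    simpa using this
  | square u v i j q h1 h2 =>
    have := Step.square (ω := ω) (x := x) (a ++ u) v i j q h1 (by rwa [endp_append])
    simpa using this

theorem Hom.append_right {n : ℕ} {ω : Sq n → Bool} {x : V n} {a a' : List (Fin n)}
    (h : Hom ω x a a') (b : List (Fin n)) : Hom ω x (a ++ b) (a' ++ b) := by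
  induction h with
  | rel _ _ h => exact .rel _ _ (h.append_right b)
  | refl _ => exact .refl _
  | symm _ _ _ ih => exact .symm _ _ ih
  | trans _ _ _ _ _ ih1 ih2 => exact .trans _ _ _ ih1 ih2

theorem Hom.append_left {n : ℕ} {ω : Sq n → Bool} {x : V n} (a : List (Fin n))
    {b b' : List (Fin n)} (h : Hom ω (endp x a) b b') : Hom ω x (a ++ b) (a ++ b') := by
  induction h with
  | rel _ _ h => exact .rel _ _ (h.append_left a)
  | refl _ => exact .refl _
  | symm _ _ _ ih => exact .symm _ _ ih
  | trans _ _ _ _ _ ih1 ih2 => exact .trans _ _ _ ih1 ih2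

/-- Steps do not change the end point. -/
theorem Step.disp_eq {n : ℕ} {ω : Sq n → Bool} {x : V n} {a a' : List (Fin n)}
    (h : Step ω x a a') : disp a = disp a' := by
  cases h with
  | back u v i =>
    simp only [disp, List.map_append, List.sum_append, List.map_cons, List.sum_cons]
    rw [← add_assoc (Pi.single i 1 : V n), add_self', zero_add]
  | square u v i j q h1 h2 =>
    simp only [disp, List.map_append, List.sum_append, List.map_cons, List.sum_cons]
    abel

/-- The closed edge paths with base point `0`. -/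
def Loop (n : ℕ) : Type := {w : List (Fin n) // endp (0 : V n) w = 0}

theorem IsSq.shift {n : ℕ} {q : Sq n} {x : V n} {i j : Fin n} (h : IsSq q x i j) :
    IsSq q (x + Pi.single i 1 + Pi.single j 1) j i := by
  refine ⟨h.1.symm, fun k hj hi => ?_⟩
  rw [h.2 k hi hj]
  simp [hi, hj]

theorem Step.reverse {n : ℕ} {ω : Sq n → Bool} {a a' : List (Fin n)}
    (ha : endp (0 : V n) a = 0) (h : Step ω 0 a a') : Step ω 0 a.reverse a'.reverse := by
  cases h with
  | back u v i =>
    have := Step.back (ω := ω) (x := 0) v.reverse u.reverse i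
    simpa using this
  | square u v i j q h1 h2 =>
    have key : endp (0 : V n) v.reverse = endp 0 u + Pi.single i 1 + Pi.single j 1 := by
      rw [endp_eq] at ha
      rw [endp_eq, endp_eq, disp_reverse, zero_add, zero_add]
      simp only [disp, List.map_append, List.sum_append, List.map_cons, List.sum_cons,
        zero_add] at ha ⊢
      have h2 := congrArg (fun t => t + ((List.map (fun i => (Pi.single i 1 : V n)) u).sum
        + Pi.single i 1 + Pi.single j 1)) ha
      simp only [zero_add] at h2
      rw [← h2]
      set U := (List.map (fun i => (Pi.single i 1 : V n)) u).sum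
      set W := (List.map (fun i => (Pi.single i 1 : V n)) v).sum
      have e : U + (Pi.single i 1 + (Pi.single j 1 + W)) + (U + Pi.single i 1 + Pi.single j 1)
          = W + (U + U) + ((Pi.single i 1 : V n) + Pi.single i 1)
            + ((Pi.single j 1 : V n) + Pi.single j 1) := by abel
      rw [e, add_self', add_self', add_self']
      simp
    have := Step.square (ω := ω) (x := 0) v.reverse u.reverse j i q h1
      (by rw [key]; exact h2.shift)
    simpa using this

theorem loopSetoid_iseqv {n : ℕ} (ω : Sq n → Bool) :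
    Equivalence fun a b : Loop n => Hom ω 0 a.1 b.1 :=
  ⟨fun _ => .refl _, fun h => .symm _ _ h, fun h1 h2 => .trans _ _ _ h1 h2⟩

/-- The homotopy relation on closed paths. -/
def loopSetoid {n : ℕ} (ω : Sq n → Bool) : Setoid (Loop n) where
  r a b := Hom ω 0 a.1 b.1
  iseqv := loopSetoid_iseqv ω

theorem Hom.disp_eq {n : ℕ} {ω : Sq n → Bool} {x : V n} {a a' : List (Fin n)}
    (h : Hom ω x a a') : disp a = disp a' := by
  induction h with
  | rel _ _ h => exact h.disp_eq
  | refl _ => rfl
  | symm _ _ _ ih => exact ih.symm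
  | trans _ _ _ _ _ ih1 ih2 => exact ih1.trans ih2

theorem Hom.reverse {n : ℕ} {ω : Sq n → Bool} {a a' : List (Fin n)}
    (h : Hom ω 0 a a') (ha : endp (0 : V n) a = 0) : Hom ω 0 a.reverse a'.reverse := by
  induction h with
  | rel _ _ h => exact .rel _ _ (h.reverse ha)
  | refl _ => exact .refl _
  | symm a b h ih =>
    refine .symm _ _ (ih ?_)
    rw [endp_eq] at ha ⊢
    rw [Hom.disp_eq h]; exact ha
  | trans a b c h1 _ ih1 ih2 =>
    refine .trans _ _ _ (ih1 ha) (ih2 ?_)
    rw [endp_eq] at ha ⊢
    rw [← Hom.disp_eq h1]; exact ha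

/-- The edge path group with base point `0`: closed edge paths up to homotopy. -/
def Pi1 {n : ℕ} (ω : Sq n → Bool) : Type := Quotient (loopSetoid ω)

theorem Hom.reverse_append {n : ℕ} (ω : Sq n → Bool) (a : List (Fin n)) :
    ∀ x : V n, Hom ω x (a.reverse ++ a) [] := by
  induction a with
  | nil => intro x; exact .refl _
  | cons i a ih =>
    intro x
    have h := Step.back (ω := ω) (x := x) a.reverse a i
    refine .trans _ _ _ (.rel _ _ ?_) (ih x)
    simpa using h

theorem Loop.mul_closed {n : ℕ} (a b : Loop n) : endp (0 : V n) (a.1 ++ b.1) = 0 := by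
  rw [endp_append, a.2, b.2]

theorem Loop.inv_closed {n : ℕ} (a : Loop n) : endp (0 : V n) a.1.reverse = 0 := by
  have := a.2
  rw [endp_eq] at this ⊢
  rw [disp_reverse]; exact this

/-- Concatenation of closed paths. -/
def Loop.mul {n : ℕ} (a b : Loop n) : Loop n := ⟨a.1 ++ b.1, a.mul_closed b⟩

/-- The reversed closed path. -/
def Loop.inv {n : ℕ} (a : Loop n) : Loop n := ⟨a.1.reverse, a.inv_closed⟩

/-- The constant path. -/
def Loop.one (n : ℕ) : Loop n := ⟨[], rfl⟩

theorem Loop.mul_congr {n : ℕ} (ω : Sq n → Bool) {a a' : Loop n} (ha : (loopSetoid ω).r a a')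
    {b b' : Loop n} (hb : (loopSetoid ω).r b b') : (loopSetoid ω).r (a.mul b) (a'.mul b') := by
  have h1 : Hom ω 0 (a.1 ++ b.1) (a'.1 ++ b.1) := Hom.append_right ha _
  have h2 : Hom ω 0 (a'.1 ++ b.1) (a'.1 ++ b'.1) :=
    Hom.append_left a'.1 (by rw [a'.2]; exact hb)
  exact .trans _ _ _ h1 h2

theorem Loop.inv_congr {n : ℕ} (ω : Sq n → Bool) {a a' : Loop n} (ha : (loopSetoid ω).r a a') :
    (loopSetoid ω).r a.inv a'.inv :=
  Hom.reverse ha a.2

/-- The product of the edge path group is induced by concatenation. -/
instance {n : ℕ} (ω : Sq n → Bool) : Mul (Pi1 ω) :=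
  ⟨fun g h => Quotient.liftOn₂ g h (fun a b => Quotient.mk (loopSetoid ω) (a.mul b))
    fun _ _ _ _ ha hb => Quotient.sound (Loop.mul_congr ω ha hb)⟩

/-- The inverse is induced by reversing closed paths. -/
instance {n : ℕ} (ω : Sq n → Bool) : Inv (Pi1 ω) :=
  ⟨fun g => Quotient.liftOn g (fun a => Quotient.mk (loopSetoid ω) a.inv)
    fun _ _ ha => Quotient.sound (Loop.inv_congr ω ha)⟩

/-- The unit is the class of the constant path. -/
instance {n : ℕ} (ω : Sq n → Bool) : One (Pi1 ω) := ⟨Quotient.mk (loopSetoid ω) (Loop.one n)⟩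

theorem Pi1.mul_assoc {n : ℕ} (ω : Sq n → Bool) (a b c : Pi1 ω) : a * b * c = a * (b * c) := by
  obtain ⟨a⟩ := a; obtain ⟨b⟩ := b; obtain ⟨c⟩ := c
  exact congrArg (Quotient.mk (loopSetoid ω)) (Subtype.ext (List.append_assoc _ _ _))

theorem Pi1.one_mul {n : ℕ} (ω : Sq n → Bool) (a : Pi1 ω) : 1 * a = a := by
  obtain ⟨a⟩ := a
  exact congrArg (Quotient.mk (loopSetoid ω)) (Subtype.ext (List.nil_append _))

theorem Pi1.inv_mul {n : ℕ} (ω : Sq n → Bool) (a : Pi1 ω) : a⁻¹ * a = 1 := by
  obtain ⟨a⟩ := a
  exact Quotient.sound (s := loopSetoid ω) (Hom.reverse_append ω a.1 0)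

/-- The edge path group is a group. -/
instance {n : ℕ} (ω : Sq n → Bool) : Group (Pi1 ω) :=
  Group.ofLeftAxioms (Pi1.mul_assoc ω) (Pi1.one_mul ω) (Pi1.inv_mul ω)

/-- The law of one square: present with probability `p`. -/
noncomputable def coin (p : ℝ) : Measure Bool :=
  ENNReal.ofReal p • Measure.dirac true + ENNReal.ofReal (1 - p) • Measure.dirac false

/-- The law of the random cubical complex `Q₂(n,p)`: all squares are present independently with
probability `p`. -/
noncomputable def law (n : ℕ) (p : ℝ) : Measure (Sq n → Bool) := Measure.pi fun _ => coin p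

/-- The fundamental group has a nontrivial element of finite order. -/
def HasTorsion {n : ℕ} (ω : Sq n → Bool) : Prop := ∃ g : Pi1 ω, g ≠ 1 ∧ IsOfFinOrder g

end Pool.Agent.X38.Cub
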