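import Pool.Agent.X38.Cub.Tor

set_option autoImplicit false

open MeasureTheory ProbabilityTheory Filter Topology

namespace Pool.Agent.X38.Cub

theorem coin_prob {p : ℝ} (h0 : 0 ≤ p) (h1 : p ≤ 1) : IsProbabilityMeasure (coin p) := by
  constructor
  unfold coin
  simp only [Measure.coe_add, Measure.coe_smul, Pi.add_apply, Pi.smul_apply, measure_univ,
    smul_eq_mul, mul_one]
  rw [← ENNReal.ofReal_add h0 (by linarith)]
  simp

theorem coin_val (p : ℝ) (b : Bool) :
    coin p {b} = ENNReal.ofReal (if b then p else 1 - p) := by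
  unfold coin
  cases b <;> simp

/-- cylinder events on disjoint blocks -/
def cyl {ι : Type*} (D : Finset ι) (t : ι → Bool) : Set (ι → Bool) := {ω | ∀ q ∈ D, ω q = t q}

theorem cyl_measure {ι : Type*} [Fintype ι] [DecidableEq ι] (ν : Measure Bool)
    [IsProbabilityMeasure ν] (D : Finset ι) (t : ι → Bool) :
    (Measure.pi fun _ : ι => ν) (cyl D t) = ∏ q ∈ D, ν {t q} := by
  have h : cyl D t = Set.pi Set.univ (fun q => if q ∈ D then {t q} else Set.univ) := by
    ext ω
    simp only [cyl, Set.mem_ofPred_eq, Set.mem_pi, Set.mem_univ, true_implies]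
    refine forall_congr' fun q => ?_
    by_cases hq : q ∈ D <;> simp [hq]
  rw [h, Measure.pi_pi]
  rw [← Finset.prod_filter_mul_prod_filter_not Finset.univ (fun q => q ∈ D)]
  have h2 : ∏ q ∈ Finset.univ.filter (fun q => q ∉ D),
      ν (if q ∈ D then {t q} else Set.univ) = 1 := by
    refine Finset.prod_eq_one fun q hq => ?_
    rw [if_neg (Finset.mem_filter.mp hq).2, measure_univ]
  rw [h2, mul_one]
  have h3 : Finset.univ.filter (fun q => q ∈ D) = D := by ext q; simp
  rw [h3]
  exact Finset.prod_congr rfl fun q hq => by rw [if_pos hq]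

theorem cyl_indep {ι J : Type*} [Fintype ι] [DecidableEq ι] [DecidableEq J] (ν : Measure Bool)
    [IsProbabilityMeasure ν] (D : J → Finset ι) (t : J → ι → Bool)
    (hD : ∀ v w, v ≠ w → Disjoint (D v) (D w)) (F : Finset J) :
    (Measure.pi fun _ : ι => ν) (⋂ v ∈ F, (cyl (D v) (t v))ᶜ)
      = ∏ v ∈ F, (Measure.pi fun _ : ι => ν) (cyl (D v) (t v))ᶜ := by
  have hind : iIndepFun (fun (i : ι) (ω : ι → Bool) => ω i) (Measure.pi fun _ : ι => ν) :=
    iIndepFun_pi (X := fun _ x => x) (μ := fun _ : ι => ν) (fun _ => aemeasurable_id)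
  induction F using Finset.induction_on with
  | empty => simp
  | insert a F ha ih =>
    rw [Finset.prod_insert ha, ← ih, Finset.set_biInter_insert]
    have hdis : Disjoint (D a) (F.biUnion D) := by
      rw [Finset.disjoint_biUnion_right]
      intro w hw
      exact hD a w (fun h => ha (h ▸ hw))
    have hi := hind.indepFun_finset (D a) (F.biUnion D) hdis (fun i => measurable_pi_apply i)
    have key := hi.measure_inter_preimage_eq_mul
      {g : {x // x ∈ D a} → Bool | ∀ q, g q = t a q}ᶜ
      {g : {x // x ∈ F.biUnion D} → Bool | ∀ v ∈ F, ¬ ∀ q : {x // x ∈ F.biUnion D}, (q : ι) ∈ D v → g q = t v q}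
      (Set.toFinite _).measurableSet (Set.toFinite _).measurableSet
    have e1 : (fun (ω : ι → Bool) (i : {x // x ∈ D a}) => ω i) ⁻¹'
        {g : {x // x ∈ D a} → Bool | ∀ q, g q = t a q}ᶜ = (cyl (D a) (t a))ᶜ := by
      ext ω; simp [cyl]
    have e2 : (fun (ω : ι → Bool) (i : {x // x ∈ F.biUnion D}) => ω i) ⁻¹'
        {g : {x // x ∈ F.biUnion D} → Bool | ∀ v ∈ F, ¬ ∀ q : {x // x ∈ F.biUnion D}, (q : ι) ∈ D v → g q = t v q}
        = ⋂ v ∈ F, (cyl (D v) (t v))ᶜ := by
      ext ω
      simp only [Set.mem_preimage, Set.mem_ofPred_eq, Set.mem_iInter, Set.mem_compl_iff, cyl]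
      refine forall_congr' fun v => forall_congr' fun hv => not_congr ⟨fun h q hq => ?_,
        fun h q hq => h q hq⟩
      exact h ⟨q, Finset.mem_biUnion.mpr ⟨v, hv, hq⟩⟩ hq
    rw [e1, e2] at key
    exact key

variable {K : ℕ}

theorem fin_cases5 (i : Fin (5 + K)) :
    (∃ i' : Fin 5, i = Fin.castAdd K i') ∨ (∃ i' : Fin K, i = Fin.natAdd 5 i') := by
  induction i using Fin.addCases with
  | left i => exact Or.inl ⟨i, rfl⟩
  | right i => exact Or.inr ⟨i, rfl⟩

theorem D_struct {c : V K} {q : Sq (5 + K)} (hq : q ∈ D c) :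
    ∃ i' : Fin 5, q.1.2.1 = Fin.castAdd K i' ∧
      ((∃ j' : Fin 5, q.1.2.2 = Fin.castAdd K j' ∧ out q.1.1 = c) ∨
       (∃ j' : Fin K, q.1.2.2 = Fin.natAdd 5 j' ∧ inS (inn q.1.1) i' = true ∧
          qpar c q = true ∧ (out q.1.1 = c ∨ flip (out q.1.1) j' = c))) := by
  replace hq := (Finset.mem_filter.mp hq).2
  obtain ⟨⟨x, i, j⟩, hlt, hi, hj⟩ := q
  simp only at hlt hi hj
  simp only [qpar, inner] at hq ⊢
  rcases fin_cases5 i with ⟨i', rfl⟩ | ⟨i', rfl⟩
  · refine ⟨i', rfl, ?_⟩
    rcases fin_cases5 j with ⟨j', rfl⟩ | ⟨j', rfl⟩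
    · left
      refine ⟨j', rfl, ?_⟩
      rcases hq with hq | hq
      · by_contra hc
        simp [par, out_flip_cast, hc] at hq
      · exact hq.1
    · right
      refine ⟨j', rfl, ?_⟩
      have hp : par c x (Fin.castAdd K i') (Fin.natAdd 5 j') = true := by
        rcases hq with hq | hq
        · exact hq
        · exfalso; have := hq.2; simp at this
      have h1 := hp
      simp only [par, cr_cast, cr_nat, out_flip_nat, inn_flip_nat] at h1
      have h2 : inS (inn x) i' = true := by
        by_contra hc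
        have hc' : inS (inn x) i' = false := by simpa using hc
        rw [hc'] at h1
        simp at h1
      refine ⟨h2, hp, ?_⟩
      by_contra hc
      push Not at hc
      simp [hc.1, hc.2] at h1
  · exfalso
    rcases fin_cases5 j with ⟨j', rfl⟩ | ⟨j', rfl⟩
    · have := Fin.lt_def.mp hlt; simp at this; omega
    · rcases hq with hq | hq
      · simp [par] at hq
      · have := hq.2; simp at this

theorem sum_flip (x : V K) (j : Fin K) : ∑ k, flip x j k = ∑ k, x k + 1 := by
  simp only [flip, Pi.add_apply, Finset.sum_add_distrib, Pi.single_apply, Finset.sum_ite_eq',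
    Finset.mem_univ, if_true]

theorem D_disjoint {c c' : V K} (h0 : ∑ k, c k = 0) (h0' : ∑ k, c' k = 0) (hne : c ≠ c') :
    Disjoint (D c) (D c') := by
  rw [Finset.disjoint_left]
  intro q hq hq'
  obtain ⟨i, hi, h⟩ := D_struct hq
  obtain ⟨i', hi', h'⟩ := D_struct hq'
  rcases h with ⟨j, hj, h⟩ | ⟨j, hj, _, _, h⟩ <;> rcases h' with ⟨j', hj', h'⟩ | ⟨j', hj', _, _, h'⟩
  · exact hne (h.symm.trans h')
  · rw [hj] at hj'; have := congrArg Fin.val hj'; simp at this; omega
  · rw [hj] at hj'; have := congrArg Fin.val hj'; simp at this; omega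
  · have hjj : j = j' := by
      rw [hj] at hj'
      exact Fin.natAdd_injective K 5 hj'
    subst hjj
    rcases h with h | h <;> rcases h' with h' | h'
    · exact hne (h.symm.trans h')
    · rw [← h', sum_flip, h, h0] at h0'
      exact absurd h0' (by decide)
    · rw [← h, sum_flip, h', h0'] at h0
      exact absurd h0 (by decide)
    · exact hne (h.symm.trans h')

def S6 : Finset (V 5 × Fin 5) := Finset.univ.filter fun e => inS e.1 e.2 = true ∧ e.1 e.2 = 0

theorem S6_card : S6.card = 6 := by decide +kernel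

def idx (i : Fin (5 + K)) : Fin 5 := Fin.addCases (motive := fun _ => Fin 5) id (fun _ => 0) i

@[simp] theorem idx_cast (i : Fin 5) : idx (Fin.castAdd K i) = i := by simp [idx]

theorem vec_ext {x y : V (5 + K)} (h1 : inn x = inn y) (h2 : out x = out y) : x = y := by
  funext k
  induction k using Fin.addCases with
  | left i => exact congrFun h1 i
  | right i => exact congrFun h2 i

def Din (c : V K) : Finset (Sq (5 + K)) := (D c).filter fun q => (q.1.2.2 : ℕ) < 5
def Dout (c : V K) : Finset (Sq (5 + K)) := (D c).filter fun q => ¬ (q.1.2.2 : ℕ) < 5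

theorem Din_card (c : V K) : (Din c).card ≤ 800 := by
  have h : (Finset.univ : Finset (V 5 × Fin 5 × Fin 5)).card = 800 := by
    simp [ZMod.card]
  rw [← h]
  refine Finset.card_le_card_of_injOn (fun q => (inn q.1.1, idx q.1.2.1, idx q.1.2.2))
    (fun _ _ => Finset.mem_coe.mpr (Finset.mem_univ _)) ?_
  intro q hq q' hq' he
  rw [Finset.mem_coe, Din, Finset.mem_filter] at hq hq'
  obtain ⟨i, hi, h⟩ := D_struct hq.1
  obtain ⟨i', hi', h'⟩ := D_struct hq'.1
  simp only [Prod.mk.injEq] at he
  obtain ⟨he1, he2, he3⟩ := he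
  rcases h with ⟨j, hj, h⟩ | ⟨j, hj, _, _, h⟩
  · rcases h' with ⟨j', hj', h'⟩ | ⟨j', hj', _, _, h'⟩
    · rw [hi, hi', idx_cast, idx_cast] at he2
      rw [hj, hj', idx_cast, idx_cast] at he3
      apply Subtype.ext
      refine Prod.ext (vec_ext he1 (h.trans h'.symm)) (Prod.ext ?_ ?_)
      · rw [hi, hi', he2]
      · rw [hj, hj', he3]
    · exfalso; have := hq'.2; rw [hj'] at this; simp at this
  · exfalso; have := hq.2; rw [hj] at this; simp at this

theorem Dout_card (c : V K) : (Dout c).card ≤ 6 * K := by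
  have h : (S6 ×ˢ (Finset.univ : Finset (Fin K)).image (fun k => (Fin.natAdd 5 k))).card
      = 6 * K := by
    rw [Finset.card_product, S6_card, Finset.card_image_of_injective _ (Fin.natAdd_injective K 5)]
    simp
  rw [← h]
  refine Finset.card_le_card_of_injOn (fun q => ((inn q.1.1, idx q.1.2.1), q.1.2.2)) ?_ ?_
  · intro q hq
    rw [Finset.mem_coe, Dout, Finset.mem_filter] at hq
    obtain ⟨i, hi, h⟩ := D_struct hq.1
    rcases h with ⟨j, hj, h⟩ | ⟨j, hj, h2, _, h⟩
    · exfalso; have := hq.2; rw [hj] at this; simp at this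
    · simp only [Finset.coe_product, Set.mem_prod, Finset.mem_coe, S6, Finset.mem_filter,
        Finset.mem_univ, true_and, Finset.mem_image]
      refine ⟨⟨?_, ?_⟩, j, hj.symm⟩
      · rw [hi, idx_cast]; exact h2
      · rw [hi, idx_cast]
        have := q.2.2.1
        rw [hi] at this
        exact this
  · intro q hq q' hq' he
    rw [Finset.mem_coe, Dout, Finset.mem_filter] at hq hq'
    obtain ⟨i, hi, h⟩ := D_struct hq.1
    obtain ⟨i', hi', h'⟩ := D_struct hq'.1
    simp only [Prod.mk.injEq] at he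
    obtain ⟨⟨he1, he2⟩, he3⟩ := he
    rcases h with ⟨j, hj, h⟩ | ⟨j, hj, _, _, h⟩
    · exfalso; have := hq.2; rw [hj] at this; simp at this
    · rcases h' with ⟨j', hj', h'⟩ | ⟨j', hj', _, _, h'⟩
      · exfalso; have := hq'.2; rw [hj'] at this; simp at this
      · rw [hi, hi', idx_cast, idx_cast] at he2
        have hjj : j = j' := by
          rw [hj, hj'] at he3
          exact Fin.natAdd_injective K 5 he3
        subst hjj
        have hx : out q.1.1 j = 0 := by
          have := q.2.2.2; rw [hj] at this; exact this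
        have hx' : out q'.1.1 j = 0 := by
          have := q'.2.2.2; rw [hj'] at this; exact this
        have ho : out q.1.1 = out q'.1.1 := by
          rcases h with h | h <;> rcases h' with h' | h'
          · exact h.trans h'.symm
          · exfalso
            have := congrFun (h.trans h'.symm) j
            rw [hx] at this
            simp [flip, hx'] at this
          · exfalso
            have := congrFun (h'.trans h.symm) j
            rw [hx'] at this
            simp [flip, hx] at this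
          · have := congrArg (fun t => flip t j) (h.trans h'.symm)
            simpa [flip_flip] using this
        apply Subtype.ext
        refine Prod.ext (vec_ext he1 ho) (Prod.ext ?_ he3)
        rw [hi, hi', he2]

/-- the lower bound for the probability of one event -/
noncomputable def Qm (p : ℝ) (K : ℕ) : ℝ := (p * (1 - p)) ^ 800 * (1 - p) ^ (6 * K)

theorem good_measure {p : ℝ} (h0 : 0 ≤ p) (h1 : p ≤ 1) (c : V K) :
    ENNReal.ofReal (Qm p K) ≤ law (5 + K) p (cyl (D c) (fun q => !qpar c q)) := by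
  have := coin_prob h0 h1
  unfold law
  rw [cyl_measure]
  rw [← Finset.prod_filter_mul_prod_filter_not (D c) (fun q => (q.1.2.2 : ℕ) < 5)]
  have h1p : 0 ≤ 1 - p := by linarith
  unfold Qm
  rw [ENNReal.ofReal_mul (by positivity)]
  refine mul_le_mul' ?_ ?_
  · calc ENNReal.ofReal ((p * (1 - p)) ^ 800)
        ≤ ENNReal.ofReal ((p * (1 - p)) ^ (Din c).card) := by
          refine ENNReal.ofReal_le_ofReal (pow_le_pow_of_le_one (by positivity) ?_ (Din_card c))
          nlinarith
      _ = ∏ q ∈ Din c, ENNReal.ofReal (p * (1 - p)) := by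
          rw [Finset.prod_const, ENNReal.ofReal_pow (by positivity)]
      _ ≤ ∏ q ∈ (D c).filter (fun q => (q.1.2.2 : ℕ) < 5), coin p {!qpar c q} := by
          refine Finset.prod_le_prod' fun q _ => ?_
          rw [coin_val]
          refine ENNReal.ofReal_le_ofReal ?_
          split_ifs <;> nlinarith
  · calc ENNReal.ofReal ((1 - p) ^ (6 * K))
        ≤ ENNReal.ofReal ((1 - p) ^ (Dout c).card) := by
          refine ENNReal.ofReal_le_ofReal (pow_le_pow_of_le_one h1p (by linarith) (Dout_card c))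
      _ = ∏ q ∈ Dout c, ENNReal.ofReal (1 - p) := by
          rw [Finset.prod_const, ENNReal.ofReal_pow h1p]
      _ ≤ ∏ q ∈ (D c).filter (fun q => ¬ (q.1.2.2 : ℕ) < 5), coin p {!qpar c q} := by
          refine Finset.prod_le_prod' fun q hq => ?_
          rw [coin_val]
          refine ENNReal.ofReal_le_ofReal ?_
          obtain ⟨i, hi, h⟩ := D_struct (Finset.mem_filter.mp hq).1
          rcases h with ⟨j, hj, h⟩ | ⟨j, hj, _, h2, h⟩
          · exfalso; have := (Finset.mem_filter.mp hq).2; rw [hj] at this; simp at this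
          · rw [h2]; simp

def ext {m : ℕ} (v : V m) : V (m + 1) := Fin.snoc (α := fun _ => ZMod 2) v (∑ k, v k)

theorem ext_sum {m : ℕ} (v : V m) : ∑ k, ext v k = 0 := by
  rw [Fin.sum_univ_castSucc]
  simp only [ext, Fin.snoc_castSucc, Fin.snoc_last]
  exact CharTwo.add_self_eq_zero _

theorem ext_inj {m : ℕ} : Function.Injective (ext (m := m)) := by
  intro v w h
  funext k
  have := congrFun h k.castSucc
  simpa [ext] using this

theorem bad_measure {p : ℝ} (h0 : 0 < p) (h1 : p < 1) (m : ℕ) :
    law (5 + (m + 1)) p {ω | ¬ HasTorsion ω} ≤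
      ENNReal.ofReal (Real.exp (-(Qm p (m + 1) * 2 ^ m))) := by
  have := coin_prob h0.le h1.le
  have hsub : {ω : Sq (5 + (m + 1)) → Bool | ¬ HasTorsion ω} ⊆
      ⋂ v ∈ (Finset.univ : Finset (V m)), (cyl (D (ext v)) (fun q => !qpar (ext v) q))ᶜ := by
    intro ω hω
    simp only [Set.mem_iInter, Set.mem_compl_iff]
    intro v _ hv
    exact hω (Good.torsion (c := ext v) hv)
  refine (measure_mono hsub).trans ?_
  unfold law
  rw [cyl_indep (coin p) (fun v : V m => D (ext v)) (fun v q => !qpar (ext v) q)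
    (fun v w hvw => D_disjoint (ext_sum v) (ext_sum w) (fun h => hvw (ext_inj h)))]
  have hQ0 : 0 ≤ Qm p (m + 1) := by
    unfold Qm; have : 0 < 1 - p := by linarith
    positivity
  have hQ1 : Qm p (m + 1) ≤ 1 := by
    unfold Qm
    have h2 : 0 < 1 - p := by linarith
    have a1 : (p * (1 - p)) ^ 800 ≤ 1 := pow_le_one₀ (by positivity) (by nlinarith)
    have a2 : (1 - p) ^ (6 * (m + 1)) ≤ 1 := pow_le_one₀ h2.le (by linarith)
    exact mul_le_one₀ a1 (by positivity) a2
  calc ∏ v ∈ (Finset.univ : Finset (V m)), (Measure.pi fun _ : Sq (5 + (m + 1)) => coin p)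
        (cyl (D (ext v)) (fun q => !qpar (ext v) q))ᶜ
      ≤ ∏ v ∈ (Finset.univ : Finset (V m)), ENNReal.ofReal (1 - Qm p (m + 1)) := by
        refine Finset.prod_le_prod' fun v _ => ?_
        rw [prob_compl_eq_one_sub (Set.toFinite _).measurableSet,
          ENNReal.ofReal_sub _ hQ0, ENNReal.ofReal_one]
        exact tsub_le_tsub_left (good_measure h0.le h1.le (ext v)) _
    _ = ENNReal.ofReal ((1 - Qm p (m + 1)) ^ (2 ^ m)) := by
        rw [Finset.prod_const, ENNReal.ofReal_pow (by linarith)]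
        congr 1
        simp [ZMod.card]
    _ ≤ ENNReal.ofReal (Real.exp (-(Qm p (m + 1) * 2 ^ m))) := by
        refine ENNReal.ofReal_le_ofReal ?_
        have h := Real.add_one_le_exp (-(Qm p (m + 1)))
        have h' : 1 - Qm p (m + 1) ≤ Real.exp (-(Qm p (m + 1))) := by linarith
        calc (1 - Qm p (m + 1)) ^ (2 ^ m) ≤ (Real.exp (-(Qm p (m + 1)))) ^ (2 ^ m) :=
              pow_le_pow_left₀ (by linarith) h' _
          _ = Real.exp (-(Qm p (m + 1) * 2 ^ m)) := by
              rw [← Real.exp_nat_mul]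
              congr 1
              push_cast
              ring

theorem torsion_whp {p : ℝ} (h0 : 0 < p) (h1 : p < 1 - (1 / 2 : ℝ) ^ (1 / 6 : ℝ)) :
    Tendsto (fun n : ℕ => law n p {ω | ¬ HasTorsion ω}) atTop (𝓝 0) := by
  have hr : (0 : ℝ) < (1 / 2 : ℝ) ^ (1 / 6 : ℝ) := by positivity
  have hp1 : p < 1 := by linarith
  have h6 : (1 / 2 : ℝ) < (1 - p) ^ 6 := by
    have e : ((1 / 2 : ℝ) ^ (1 / 6 : ℝ)) ^ 6 = 1 / 2 := by
      rw [← Real.rpow_natCast, ← Real.rpow_mul (by norm_num)]
      norm_num
    rw [← e]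
    exact pow_lt_pow_left₀ (by linarith) hr.le (by norm_num)
  rw [← tendsto_add_atTop_iff_nat 6]
  have hle : ∀ m : ℕ, law (m + 6) p {ω | ¬ HasTorsion ω} ≤
      ENNReal.ofReal (Real.exp (-(Qm p (m + 1) * 2 ^ m))) := by
    intro m
    have h := bad_measure h0 hp1 m
    have e : 5 + (m + 1) = m + 6 := by omega
    rw [e] at h
    exact h
  refine tendsto_of_tendsto_of_tendsto_of_le_of_le tendsto_const_nhds ?_
    (fun _ => bot_le) hle
  rw [← ENNReal.ofReal_zero]
  refine (ENNReal.continuous_ofReal.tendsto 0).comp ?_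
  refine Real.tendsto_exp_neg_atTop_nhds_zero.comp ?_
  have hc : 0 < (p * (1 - p)) ^ 800 * (1 - p) ^ 6 := by
    have : 0 < 1 - p := by linarith
    positivity
  have hlim : Tendsto (fun m : ℕ => ((p * (1 - p)) ^ 800 * (1 - p) ^ 6) *
      (2 * (1 - p) ^ 6) ^ m) atTop atTop :=
    Tendsto.const_mul_atTop hc (tendsto_pow_atTop_atTop_of_one_lt (by linarith))
  refine hlim.congr fun m => ?_
  unfold Qm
  generalize (p * (1 - p)) ^ 800 = A
  generalize 1 - p = r
  rw [mul_pow (2 : ℝ) (r ^ 6) m, ← pow_mul, mul_add 6 m 1, pow_add]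
  ring

end Pool.Agent.X38.Cub
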