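import Pool.Agent.X38.Cub.Defs

set_option autoImplicit false

namespace Pool.Agent.X38.Cub

/-- binary code of a vertex of the `5`-cube -/
def code (x : V 5) : ℕ :=
  (x 0).val + 2 * (x 1).val + 4 * (x 2).val + 8 * (x 3).val + 16 * (x 4).val

/-- The six edges of the `5`-cube crossed by the core of the Moebius strip. -/
def inS (x : V 5) (i : Fin 5) : Bool :=
  decide ((code (Function.update x i 0), (i : ℕ)) ∈
    [((0 : ℕ), (0 : ℕ)), (2, 0), (6, 0), (4, 1), (4, 3), (0, 3)])

variable {K : ℕ}

def inn (x : V (5 + K)) : V 5 := fun k => x (Fin.castAdd K k)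
def out (x : V (5 + K)) : V K := fun k => x (Fin.natAdd 5 k)

theorem flip_flip {n : ℕ} (x : V n) (i : Fin n) : flip (flip x i) i = x := by
  unfold flip; rw [add_assoc, add_self', add_zero]

theorem flip_comm {n : ℕ} (x : V n) (i j : Fin n) : flip (flip x i) j = flip (flip x j) i := by
  unfold flip; abel

theorem inn_flip_cast (x : V (5 + K)) (i : Fin 5) :
    inn (flip x (Fin.castAdd K i)) = flip (inn x) i := by
  funext k
  simp only [inn, flip, Pi.add_apply, Pi.single_apply]
  congr 1
  simp [Fin.ext_iff]

theorem out_flip_cast (x : V (5 + K)) (i : Fin 5) : out (flip x (Fin.castAdd K i)) = out x := by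
  funext k
  simp only [out, flip, Pi.add_apply, Pi.single_apply]
  rw [if_neg]; · simp
  intro h; have := congrArg Fin.val h; simp at this; omega

theorem inn_flip_nat (x : V (5 + K)) (j : Fin K) : inn (flip x (Fin.natAdd 5 j)) = inn x := by
  funext k
  simp only [inn, flip, Pi.add_apply, Pi.single_apply]
  rw [if_neg]; · simp
  intro h; have := congrArg Fin.val h; simp at this; omega

theorem out_flip_nat (x : V (5 + K)) (j : Fin K) :
    out (flip x (Fin.natAdd 5 j)) = flip (out x) j := by
  funext k
  simp only [out, flip, Pi.add_apply, Pi.single_apply]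
  congr 1
  simp [Fin.ext_iff]

theorem inS_flip : ∀ (x : V 5) (i : Fin 5), inS (flip x i) i = inS x i := by
  intro x i
  unfold inS
  congr 4
  unfold flip
  funext k
  by_cases h : k = i
  · subst h; simp
  · simp [Function.update_of_ne h, Pi.single_apply, h]

/-- Does the edge from `x` in direction `i` belong to the copy of the six edges at `c`? -/
def cr (c : V K) (x : V (5 + K)) (i : Fin (5 + K)) : Bool :=
  Fin.addCases (motive := fun _ => Bool) (fun i' => decide (out x = c) && inS (inn x) i')
    (fun _ => false) i

@[simp] theorem cr_cast (c : V K) (x : V (5 + K)) (i : Fin 5) :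
    cr c x (Fin.castAdd K i) = (decide (out x = c) && inS (inn x) i) := by
  simp [cr]

@[simp] theorem cr_nat (c : V K) (x : V (5 + K)) (j : Fin K) :
    cr c x (Fin.natAdd 5 j) = false := by
  simp [cr]

theorem cr_flip (c : V K) (x : V (5 + K)) (i : Fin (5 + K)) : cr c (flip x i) i = cr c x i := by
  induction i using Fin.addCases with
  | left i => rw [cr_cast, cr_cast, out_flip_cast, inn_flip_cast, inS_flip]
  | right j => rw [cr_nat, cr_nat]

/-- parity of the number of crossed edges of a path -/
def cross (c : V K) : V (5 + K) → List (Fin (5 + K)) → Bool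
  | _, [] => false
  | x, i :: w => xor (cr c x i) (cross c (flip x i) w)

theorem cross_append (c : V K) (u w : List (Fin (5 + K))) : ∀ x,
    cross c x (u ++ w) = xor (cross c x u) (cross c (endp x u) w) := by
  induction u with
  | nil => intro x; simp [cross, endp_nil]
  | cons i u ih => intro x; simp only [List.cons_append, cross, ih, endp_cons, Bool.xor_assoc]

/-- parity of the number of crossed edges of a square -/
def par (c : V K) (x : V (5 + K)) (i j : Fin (5 + K)) : Bool :=
  xor (xor (cr c x i) (cr c (flip x i) j)) (xor (cr c x j) (cr c (flip x j) i))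

theorem par_comm (c : V K) (x : V (5 + K)) (i j : Fin (5 + K)) : par c x i j = par c x j i := by
  unfold par
  exact Bool.xor_comm _ _

theorem par_flip (c : V K) (x : V (5 + K)) (i j : Fin (5 + K)) :
    par c (flip x i) i j = par c x i j := by
  unfold par
  rw [cr_flip, flip_flip, flip_comm x i j, cr_flip]
  cases cr c x i <;> cases cr c (flip x i) j <;> cases cr c x j <;> cases cr c (flip x j) i <;> rfl

def qpar (c : V K) (q : Sq (5 + K)) : Bool := par c q.1.1 q.1.2.1 q.1.2.2

theorem zmod2 (a b : ZMod 2) : a = b ∨ a = b + 1 := by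
  revert a b; decide

theorem par_agree (c : V K) (x y : V (5 + K)) (i j : Fin (5 + K))
    (h : ∀ k, k ≠ i → k ≠ j → y k = x k) : par c x i j = par c y i j := by
  by_cases hij : i = j
  · subst hij
    rcases zmod2 (y i) (x i) with h1 | h1
    · have : y = x := by
        funext k; by_cases hk : k = i
        · rw [hk, h1]
        · exact h k hk hk
      rw [this]
    · have : y = flip x i := by
        funext k; by_cases hk : k = i
        · subst hk; rw [h1]; simp [flip]
        · rw [h k hk hk]; simp [flip, Pi.single_apply, hk]
      rw [this, par_flip]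
  · have hji : j ≠ i := fun e => hij e.symm
    rcases zmod2 (y i) (x i) with h1 | h1 <;> rcases zmod2 (y j) (x j) with h2 | h2
    · have : y = x := by
        funext k; by_cases hk : k = i
        · rw [hk, h1]
        · by_cases hk' : k = j
          · rw [hk', h2]
          · exact h k hk hk'
      rw [this]
    · have : y = flip x j := by
        funext k; by_cases hk : k = i
        · subst hk; rw [h1]; simp [flip, Pi.single_apply, hij]
        · by_cases hk' : k = j
          · subst hk'; rw [h2]; simp [flip]
          · rw [h k hk hk']; simp [flip, Pi.single_apply, hk']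
      rw [this, par_comm c (flip x j), par_flip, par_comm]
    · have : y = flip x i := by
        funext k; by_cases hk : k = i
        · subst hk; rw [h1]; simp [flip]
        · by_cases hk' : k = j
          · subst hk'; rw [h2]; simp [flip, Pi.single_apply, hji]
          · rw [h k hk hk']; simp [flip, Pi.single_apply, hk]
      rw [this, par_flip]
    · have : y = flip (flip x j) i := by
        funext k; by_cases hk : k = i
        · subst hk; rw [h1]; simp [flip, Pi.single_apply, hij]
        · by_cases hk' : k = j
          · subst hk'; rw [h2]; simp [flip, Pi.single_apply, hji]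
          · rw [h k hk hk']; simp [flip, Pi.single_apply, hk, hk']
      rw [this, par_flip, par_comm c (flip x j), par_flip, par_comm]

theorem par_of_isSq (c : V K) {q : Sq (5 + K)} {x : V (5 + K)} {i j : Fin (5 + K)}
    (h : IsSq q x i j) : par c x i j = qpar c q := by
  unfold qpar
  rcases h.1 with ⟨h1, h2⟩ | ⟨h1, h2⟩
  · rw [h1, h2]; exact par_agree c x _ i j h.2
  · rw [h1, h2, par_comm c _ j i]; exact par_agree c x _ i j h.2

/-- The squares that are decided by the event at `c`. -/
def inner (c : V K) (q : Sq (5 + K)) : Prop := out q.1.1 = c ∧ (q.1.2.2 : ℕ) < 5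

instance (c : V K) (q : Sq (5 + K)) : Decidable (inner c q) := by unfold inner; infer_instance

def D (c : V K) : Finset (Sq (5 + K)) :=
  Finset.univ.filter fun q => qpar c q = true ∨ inner c q

def Good (ω : Sq (5 + K) → Bool) (c : V K) : Prop := ∀ q ∈ D c, ω q = !qpar c q

theorem Good.par_false {ω : Sq (5 + K) → Bool} {c : V K} (hg : Good ω c) {q : Sq (5 + K)}
    (hq : ω q = true) : qpar c q = false := by
  by_contra h
  have h' : qpar c q = true := by simpa using h
  have := hg q (by simp [D, h'])
  rw [hq, h'] at this
  simp at this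

theorem Good.step {ω : Sq (5 + K) → Bool} {c : V K} (hg : Good ω c) {x : V (5 + K)}
    {a a' : List (Fin (5 + K))} (h : Step ω x a a') : cross c x a = cross c x a' := by
  cases h with
  | back u v i =>
    rw [cross_append, cross_append]
    simp only [cross, flip_flip, cr_flip]
    cases cr c (endp x u) i <;> simp
  | square u v i j q h1 h2 =>
    have hp := par_of_isSq c h2
    rw [hg.par_false h1] at hp
    rw [cross_append, cross_append]
    simp only [cross]
    rw [flip_comm (endp x u) j i]
    unfold par at hp
    revert hp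
    cases cr c (endp x u) i <;> cases cr c (flip (endp x u) i) j <;> cases cr c (endp x u) j <;>
      cases cr c (flip (endp x u) j) i <;> simp

theorem Good.hom {ω : Sq (5 + K) → Bool} {c : V K} (hg : Good ω c) {x : V (5 + K)}
    {a a' : List (Fin (5 + K))} (h : Hom ω x a a') : cross c x a = cross c x a' := by
  induction h with
  | rel _ _ h => exact hg.step h
  | refl _ => rfl
  | symm _ _ _ ih => exact ih.symm
  | trans _ _ _ _ _ ih1 ih2 => exact ih1.trans ih2

/-! ### the inner computation -/

def par5 (x : V 5) (i j : Fin 5) : Bool :=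
  xor (xor (inS x i) (inS (flip x i) j)) (xor (inS x j) (inS (flip x j) i))

def cross5 : V 5 → List (Fin 5) → Bool
  | _, [] => false
  | x, i :: w => xor (inS x i) (cross5 (flip x i) w)

inductive Mv
  | s (k : ℕ)
  | c (k : ℕ)
  | i (k : ℕ) (l : Fin 5)

def swp (x : V 5) (u : List (Fin 5)) : List (Fin 5) → Option (List (Fin 5))
  | a :: b :: v => if a ≠ b ∧ par5 (endp x u) a b = false then some (u ++ b :: a :: v) else none
  | _ => none

def cnc (u : List (Fin 5)) : List (Fin 5) → Option (List (Fin 5))
  | a :: b :: v => if a = b then some (u ++ v) else none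
  | _ => none

def app (x : V 5) (w : List (Fin 5)) : Mv → Option (List (Fin 5))
  | .s k => swp x (w.take k) (w.drop k)
  | .c k => cnc (w.take k) (w.drop k)
  | .i k l => some (w.take k ++ l :: l :: w.drop k)

def run (x : V 5) : List (Fin 5) → List Mv → Option (List (Fin 5))
  | w, [] => some w
  | w, m :: ms => match app x w m with
    | some w' => run x w' ms
    | none => none

def up (w : List (Fin 5)) : List (Fin (5 + K)) := w.map (Fin.castAdd K)

theorem inn_endp (w : List (Fin 5)) : ∀ b : V (5 + K), inn (endp b (up w)) = endp (inn b) w := by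
  induction w with
  | nil => intro b; rfl
  | cons i w ih => intro b; simp only [up, List.map_cons, endp_cons] at ih ⊢; rw [ih, inn_flip_cast]

theorem out_endp (w : List (Fin 5)) : ∀ b : V (5 + K), out (endp b (up w)) = out b := by
  induction w with
  | nil => intro b; rfl
  | cons i w ih => intro b; simp only [up, List.map_cons, endp_cons] at ih ⊢; rw [ih, out_flip_cast]

theorem cross_up (c : V K) (w : List (Fin 5)) : ∀ b : V (5 + K), out b = c →
    cross c b (up w) = cross5 (inn b) w := by
  induction w with
  | nil => intro b _; rfl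
  | cons i w ih =>
    intro b hb
    simp only [up, List.map_cons, cross, cross5, cr_cast] at ih ⊢
    rw [ih _ (by rw [out_flip_cast, hb]), inn_flip_cast]
    simp [hb]

theorem par_up (c : V K) (b : V (5 + K)) (hb : out b = c) (i j : Fin 5) :
    par c b (Fin.castAdd K i) (Fin.castAdd K j) = par5 (inn b) i j := by
  unfold par par5
  simp [out_flip_cast, inn_flip_cast, hb]

/-- the square at `x` in two different directions -/
def mkSq {n : ℕ} (x : V n) (i j : Fin n) (h : i < j) : Sq n :=
  ⟨(Function.update (Function.update x i 0) j 0, i, j), h, by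
    constructor
    · simp [Function.update_of_ne h.ne]
    · simp⟩

theorem mkSq_isSq {n : ℕ} (x : V n) (i j : Fin n) (h : i < j) : IsSq (mkSq x i j h) x i j :=
  ⟨Or.inl ⟨rfl, rfl⟩, fun k hi hj => by simp [mkSq, Function.update_of_ne hi, Function.update_of_ne hj]⟩

theorem exists_isSq {n : ℕ} (x : V n) (i j : Fin n) (h : i ≠ j) : ∃ q : Sq n, IsSq q x i j ∧
    (q.1.2.2 = i ∨ q.1.2.2 = j) := by
  rcases lt_or_gt_of_ne h with h | h
  · exact ⟨mkSq x i j h, mkSq_isSq x i j h, Or.inr rfl⟩
  · refine ⟨mkSq x j i h, ⟨(mkSq_isSq x j i h).1.symm, fun k hi hj => (mkSq_isSq x j i h).2 k hj hi⟩,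
      Or.inl rfl⟩

theorem Good.present {ω : Sq (5 + K) → Bool} {c : V K} (hg : Good ω c) (b : V (5 + K))
    (hb : out b = c) (i j : Fin 5) (hij : i ≠ j) (hp : par5 (inn b) i j = false) :
    ∃ q : Sq (5 + K), ω q = true ∧ IsSq q b (Fin.castAdd K i) (Fin.castAdd K j) := by
  obtain ⟨q, hq, hq2⟩ := exists_isSq b (Fin.castAdd K i) (Fin.castAdd K j)
    (fun h => hij (Fin.castAdd_injective _ _ h))
  refine ⟨q, ?_, hq⟩
  have h1 : qpar c q = false := by rw [← par_of_isSq c hq, par_up c b hb, hp]
  have h2 : inner c q := by
    refine ⟨?_, ?_⟩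
    · rw [← hb]
      funext k
      refine hq.2 _ ?_ ?_ <;>
      · intro h; have := congrArg Fin.val h; simp at this; omega
    · rcases hq2 with h | h <;> rw [h] <;> simp
  rw [hg q (by simp [D, h2]), h1]; rfl

theorem swp_sound {ω : Sq (5 + K) → Bool} {c : V K} (hg : Good ω c) (b : V (5 + K))
    (hb : out b = c) (u v w' : List (Fin 5)) (h : swp (inn b) u v = some w') :
    Hom ω b (up (u ++ v)) (up w') := by
  match v with
  | [] => simp [swp] at h
  | [a] => simp [swp] at h
  | a :: a' :: v =>
    simp only [swp] at h
    split_ifs at h with hc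
    obtain ⟨q, hq1, hq2⟩ := hg.present (endp b (up u)) (by rw [out_endp, hb]) a a' hc.1
      (by rw [inn_endp]; exact hc.2)
    simp only [Option.some.injEq] at h
    rw [← h]
    refine .rel _ _ ?_
    have := Step.square (ω := ω) (x := b) (up u) (up v) _ _ q hq1 hq2
    simpa [up] using this

theorem cnc_sound {ω : Sq (5 + K) → Bool} (b : V (5 + K)) (u v w' : List (Fin 5))
    (h : cnc u v = some w') : Hom ω b (up (u ++ v)) (up w') := by
  match v with
  | [] => simp [cnc] at h
  | [a] => simp [cnc] at h
  | a :: a' :: v =>
    simp only [cnc] at h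
    split_ifs at h with hc
    subst hc
    simp only [Option.some.injEq] at h
    rw [← h]
    refine .rel _ _ ?_
    have := Step.back (ω := ω) (x := b) (up u) (up v) (Fin.castAdd K a)
    simpa [up] using this

theorem app_sound {ω : Sq (5 + K) → Bool} {c : V K} (hg : Good ω c) (b : V (5 + K))
    (hb : out b = c) (w w' : List (Fin 5)) (m : Mv) (h : app (inn b) w m = some w') :
    Hom ω b (up w) (up w') := by
  match m with
  | .s k =>
    have := swp_sound hg b hb _ _ _ h
    rwa [List.take_append_drop] at this
  | .c k =>
    have := cnc_sound (ω := ω) b _ _ _ h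
    rwa [List.take_append_drop] at this
  | .i k l =>
    simp only [app, Option.some.injEq] at h
    rw [← h]
    refine .symm _ _ (.rel _ _ ?_)
    have := Step.back (ω := ω) (x := b) (up (w.take k)) (up (w.drop k)) (Fin.castAdd K l)
    have e : up (K := K) (w.take k) ++ up (w.drop k) = up w := by
      simp only [up, ← List.map_append, List.take_append_drop]
    rw [e] at this
    simpa [up] using this

theorem run_sound {ω : Sq (5 + K) → Bool} {c : V K} (hg : Good ω c) (b : V (5 + K))
    (hb : out b = c) (ms : List Mv) : ∀ w w' : List (Fin 5), run (inn b) w ms = some w' →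
    Hom ω b (up w) (up w') := by
  induction ms with
  | nil => intro w w' h; simp only [run, Option.some.injEq] at h; rw [h]; exact .refl _
  | cons m ms ih =>
    intro w w' h
    simp only [run] at h
    match h1 : app (inn b) w m with
    | none => rw [h1] at h; simp at h
    | some w1 =>
      rw [h1] at h
      exact .trans _ _ _ (app_sound hg b hb w w1 m h1) (ih w1 w' h)

def gam : List (Fin 5) := [1, 2, 3, 1, 2, 0, 3, 0]

def moves : List Mv :=
  [.s 7, .s 8, .i 9 1, .s 10, .s 11, .c 12, .s 11, .s 12, .c 13, .c 12, .i 0 4, .s 1, .s 2, .s 3,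
   .s 4, .s 5, .s 6, .s 7, .s 8, .s 9, .s 10, .s 11, .s 12, .s 9, .c 8, .s 9, .c 8, .s 7, .c 6,
   .s 3, .s 2, .c 1, .s 2, .c 1, .c 1, .c 0]

theorem run_moves : run 0 (gam ++ gam) moves = some [] := by decide +kernel

theorem cross5_gam : cross5 0 gam = true := by decide +kernel

theorem exists_path {n : ℕ} (b : V n) : ∃ p : List (Fin n), endp 0 p = b := by
  refine ⟨(Finset.univ.filter fun k => b k = 1).toList, ?_⟩
  rw [endp_eq, zero_add]
  unfold disp
  rw [Finset.sum_map_toList]
  funext k
  rw [Finset.sum_apply]
  simp only [Pi.single_apply, Finset.sum_ite_eq, Finset.mem_filter, Finset.mem_univ, true_and]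
  rcases zmod2 (b k) 0 with h | h
  · rw [h]; decide
  · rw [h]; decide

theorem Good.torsion {ω : Sq (5 + K) → Bool} {c : V K} (hg : Good ω c) : HasTorsion ω := by
  let b : V (5 + K) := Fin.addCases (fun _ => 0) c
  have hb1 : inn b = 0 := by funext k; simp [inn, b]
  have hb2 : out b = c := by funext k; simp [out, b]
  obtain ⟨p, hp⟩ := exists_path b
  set g : List (Fin (5 + K)) := up gam with hgdef
  have hgg : Hom ω b (g ++ g) [] := by
    have := run_sound hg b hb2 moves (gam ++ gam) [] (by rw [hb1]; exact run_moves)
    simpa [up, hgdef] using this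
  have hgc : cross c b g = true := by
    rw [hgdef, cross_up c gam b hb2, hb1]; exact cross5_gam
  have hdg : endp b g = b := by
    rw [endp_eq]
    have h5 : disp g = 0 := by
      have h0 : ∀ k : Fin 5, (inn (endp b g)) k = 0 := by
        intro k
        rw [hgdef, inn_endp, hb1]
        revert k; decide +kernel
      have h1 : ∀ k, (out (endp b g)) k = c k := by
        intro k; rw [hgdef, out_endp, hb2]
      funext k
      have e : (endp b g) k = b k := by
        induction k using Fin.addCases with
        | left i => have := h0 i; simp only [inn] at this; rw [this]; simp [b]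
        | right i => have := h1 i; simp only [out] at this; rw [this]; simp [b]
      rw [endp_eq] at e
      simpa using e
    rw [h5, add_zero]
  have hpr : endp b p.reverse = 0 := by
    rw [endp_eq, disp_reverse]
    rw [endp_eq, zero_add] at hp
    rw [hp, add_self']
  let W : Loop (5 + K) := ⟨p ++ (g ++ p.reverse), by
    rw [endp_append, hp, endp_append, hdg, hpr]⟩
  have key1 : ¬ Hom ω 0 (p ++ (g ++ p.reverse)) [] := by
    intro h1
    have h2 := hg.hom h1
    rw [cross_append, hp, cross_append, hdg, hgc] at h2
    have h3 : cross c b (p.reverse ++ p) = cross c b [] := hg.hom (Hom.reverse_append ω p b)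
    rw [cross_append, hpr] at h3
    simp only [cross] at h2 h3
    revert h2 h3
    cases cross c 0 p <;> cases cross c b p.reverse <;> simp
  have key2 : Hom ω 0 ((p ++ (g ++ p.reverse)) ++ (p ++ (g ++ p.reverse))) [] := by
    have e : (p ++ (g ++ p.reverse)) ++ (p ++ (g ++ p.reverse))
        = p ++ ((g ++ (p.reverse ++ p)) ++ (g ++ p.reverse)) := by simp
    rw [e]
    have s1 : Hom ω b (g ++ (p.reverse ++ p)) g := by
      have := Hom.append_left (ω := ω) (x := b) g (b := p.reverse ++ p) (b' := [])
        (Hom.reverse_append ω p _)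
      simpa using this
    have s2 : Hom ω b ((g ++ (p.reverse ++ p)) ++ (g ++ p.reverse)) ((g ++ g) ++ p.reverse) := by
      have := s1.append_right (g ++ p.reverse)
      simpa using this
    have s3 : Hom ω b ((g ++ g) ++ p.reverse) ([] ++ p.reverse) := hgg.append_right _
    have s4 : Hom ω b ((g ++ (p.reverse ++ p)) ++ (g ++ p.reverse)) p.reverse :=
      .trans _ _ _ s2 s3
    have s5 : Hom ω 0 (p ++ ((g ++ (p.reverse ++ p)) ++ (g ++ p.reverse))) (p ++ p.reverse) :=
      Hom.append_left p (by rw [hp]; exact s4)
    have s6 := Hom.reverse_append ω p.reverse (0 : V (5 + K))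
    rw [List.reverse_reverse] at s6
    exact .trans _ _ _ s5 s6
  let G : Pi1 ω := Quotient.mk (loopSetoid ω) W
  have hG1 : G ≠ 1 := fun h => key1 (Quotient.exact h)
  have hG2 : G * G = 1 := Quotient.sound (s := loopSetoid ω) key2
  exact ⟨G, hG1, isOfFinOrder_iff_pow_eq_one.mpr ⟨2, by norm_num, by rw [pow_two, hG2]⟩⟩

end Pool.Agent.X38.Cub
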